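import Mathlib
import Pool.Agent.Lib.MP_15a8b6_co.Defs
import Pool.Agent.Lib.DH7.Final

set_option autoImplicit false

namespace Pool.Agent.Results.MP_15a8b6_co.CutPoints

open Pool.Agent.Lib.MP_15a8b6_co

/-- Cut every arc into an initial, a middle and a final part, the outer parts owned by the
adjacent endpoints. If every common point of two arcs is owned on one of them by a common
endpoint, or lies on both middle parts with that endpoint the head of both edges or of neither,
then the graph embeds in the surface. -/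
theorem result {V : Type*} [Finite V] (G : SimpleGraph V) (S : Type*) [TopologicalSpace S]
    [T2Space S] [ChartedSpace (EuclideanSpace ℝ (Fin 2)) S] (D : Drawing G S)
    (a b : G.edgeSet → unitInterval) (hab : ∀ e, a e ≤ b e)
    (head : G.edgeSet → V) (hhead : ∀ e : G.edgeSet, head e ∈ (e : Sym2 V))
    (h2 : ∀ (e f : G.edgeSet) (s t : unitInterval), e ≠ f → D.arc e s = D.arc f t →
      D.arc e s ∉ Set.range D.pos → ∃ v, v ∈ (e : Sym2 V) ∧ v ∈ (f : Sym2 V) ∧
        ((s ≤ a e ∧ D.pos v = D.arc e 0 ∨ b e < s ∧ D.pos v = D.arc e 1) ∨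
          (t ≤ a f ∧ D.pos v = D.arc f 0 ∨ b f < t ∧ D.pos v = D.arc f 1) ∨
          (a e < s ∧ s ≤ b e ∧ a f < t ∧ t ≤ b f ∧ (head e = v ↔ head f = v)))) :
    ∃ D' : Drawing G S, ∀ e f, e ≠ f → ¬ D'.Meet e f :=
  Pool.Agent.Lib.DH7.cut_points head hhead _ D a b hab (Nat.lt_succ_self _) h2

end Pool.Agent.Results.MP_15a8b6_co.CutPoints
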