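import Mathlib
import Pool.Agent.Lib.MP_15a8b6_co.Defs
import Pool.Agent.Lib.EU59.Final

set_option autoImplicit false

namespace Pool.Agent.Results.MP_15a8b6_co.EulerBound

open Pool.Agent.Lib.MP_15a8b6_co

/-- A graph with `n ≥ 3` vertices and `m` edges drawn in a surface without independent crossings
is no denser than some graph embedded in the same surface: `m - 3 n ≤ m' - 3 n'`. -/
theorem result {V : Type*} [Finite V] (G : SimpleGraph V) (S : Type*) [TopologicalSpace S]
    [T2Space S] [ChartedSpace (EuclideanSpace ℝ (Fin 2)) S] (D : Drawing G S)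
    (hV : 3 ≤ Nat.card V)
    (h : ∀ e f : G.edgeSet, e ≠ f → D.Meet e f → ∃ v, v ∈ (e : Sym2 V) ∧ v ∈ (f : Sym2 V)) :
    ∃ (n' : ℕ) (G' : SimpleGraph (Fin n')) (D' : Drawing G' S),
      (∀ e f, e ≠ f → ¬ D'.Meet e f) ∧ 3 ≤ n' ∧
        G.edgeSet.ncard + 3 * n' ≤ G'.edgeSet.ncard + 3 * Nat.card V := by
  have := Fintype.ofFinite V
  rw [Nat.card_eq_fintype_card] at hV ⊢
  exact Pool.Agent.Lib.EU59.wit_of_drawing D h hV

end Pool.Agent.Results.MP_15a8b6_co.EulerBound
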