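import Mathlib
import Pool.Agent.Lib.MP_15a8b6_co.Defs
import Pool.Agent.Lib.OG59.Cpt

set_option autoImplicit false

namespace Pool.Agent.Results.MP_15a8b6_co.OddGirth

open Pool.Agent.Lib.MP_15a8b6_co

/-- On a compact surface `S` there is a least `k` such that `k + 1` disjoint copies of `K₅` have
no embedding. If `G` is drawn in `S` with no independent crossings and at most one crossing per
pair of edges, and the crossed edges lie in a graph `K` with no odd closed walk shorter than
`4 k + 5`, then `G` embeds in `S`. -/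
theorem result (S : Type*) [TopologicalSpace S] [T2Space S] [CompactSpace S]
    [ChartedSpace (EuclideanSpace ℝ (Fin 2)) S] :
    ∃ k : ℕ, IsLeast {j : ℕ | ¬ ∃ D₀ : Drawing
        (SimpleGraph.fromRel fun a b : Fin (j + 1) × Fin 5 => a.1 = b.1) S,
        ∀ e f, e ≠ f → ¬ D₀.Meet e f} k ∧
      ∀ (V : Type*) [Finite V] (G : SimpleGraph V) (D : Drawing G S),
        (∀ e f : G.edgeSet, e ≠ f → D.Meet e f → ∃ v, v ∈ (e : Sym2 V) ∧ v ∈ (f : Sym2 V)) →
        (∀ e f : G.edgeSet, e ≠ f →
          ((Set.range (D.arc e) ∩ Set.range (D.arc f)) \ Set.range D.pos).Subsingleton) →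
        ∀ K : SimpleGraph V, (∀ e f : G.edgeSet, e ≠ f → D.Meet e f → (e : Sym2 V) ∈ K.edgeSet) →
        (∀ (x : V) (w : K.Walk x x), Odd w.length → 4 * k + 5 ≤ w.length) →
        ∃ D' : Drawing G S, ∀ e f, e ≠ f → ¬ D'.Meet e f := by
  classical
  have h := Pool.Agent.Lib.OG59.exists_bound (S := S)
  exact ⟨Nat.find h, Nat.isLeast_find h, fun V _ G D h1 h2 K h3 h4 =>
    Pool.Agent.Lib.OG59.odd_girth _ (Nat.find_spec h) D h1 h2 K h3 h4⟩

end Pool.Agent.Results.MP_15a8b6_co.OddGirth
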